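import Pool.Agent.H74.TQ.Stmts

/-! # Two queries: `cstar` is computable with the oracle -/

set_option autoImplicit false

namespace Pool.TQ

open TMLib Polynomial

namespace CFP

variable {α : Type} [Enc α]

lemma ptime_cut {s l : α → ℕ} {x : α → List Bool} (hs : PTime s) (hl : PTime l) (hx : PTime x) :
    PTime (fun a => cut (s a) (l a) (x a)) := by
  unfold cut
  refine PTime.map (g := fun a j => ((x a).drop (j * l a)).take (l a)) (PTime.range hs) ?_
  have hl' : PTime (fun p : α × ℕ => l p.1) := hl.comp (PTime.fst PTime.id)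
  have hx' : PTime (fun p : α × ℕ => x p.1) := hx.comp (PTime.fst PTime.id)
  exact PTime.take hl' (PTime.drop (PTime.mul (PTime.snd PTime.id) hl') hx')

lemma ptime_hbits {a : α → ℕ} (ha : PTime a) : PTime (fun x => hbits (a x)) := by
  unfold hbits
  exact PTime.mul (PTime.add ha (PTime.const 2)) (PTime.add ha (PTime.const 1))

lemma ptime_xor {f g : α → Bool} (hf : PTime f) (hg : PTime g) :
    PTime (fun x => xor (f x) (g x)) :=
  (PTime.cond hf (PTime.not hg) hg).congr fun x => by cases f x <;> simp

lemma ptime_xorl {x y : α → List Bool} (hx : PTime x) (hy : PTime y) :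
    PTime (fun a => xorl (x a) (y a)) := by
  unfold xorl
  exact PTime.map (g := fun _ (p : Bool × Bool) => xor p.1 p.2) (PTime.zip hx hy)
    (ptime_xor (PTime.fst (PTime.snd PTime.id)) (PTime.snd (PTime.snd PTime.id)))

/-- `BadBlock` as a program -/
lemma badBlock_iff (S : List Bool × Form → Bool) (a g : ℕ) (Φ : List Form) (φ : Form)
    (x : List Bool) :
    BadBlock S a g Φ φ x ↔
      ((cut g (hbits a) x).all fun h => !S (samp S a Φ h, φ)) = true := by
  unfold BadBlock
  rw [List.all_eq_true]
  simp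

end CFP

theorem cfp : S_CFP := by
  intro hc hF S P hS hsamp
  classical
  have pa := P.pa
  have pg := P.pg
  have ps := P.ps
  have pp0 := P.pp0
  -- parameters on the input
  have hn : PTime (fun p : ℕ × List Bool => p.1) := PTime.fst PTime.id
  have hx : PTime (fun p : ℕ × List Bool => p.2) := PTime.snd PTime.id
  have ha : PTime (fun p : ℕ × List Bool => P.a p.1) := PTime.comp (g := P.a) pa hn
  have hg : PTime (fun p : ℕ × List Bool => P.g p.1) := PTime.comp (g := P.g) pg hn
  have hs : PTime (fun p : ℕ × List Bool => P.s p.1) := PTime.comp (g := P.s) ps hn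
  have hp0 : PTime (fun p : ℕ × List Bool => P.p0 p.1) := PTime.comp (g := P.p0) pp0 hn
  have hell : PTime (fun p : ℕ × List Bool => P.ell p.1) :=
    PTime.mul hg (CFP.ptime_hbits ha)
  set I : ℕ × List Bool → List Form × Form := fun p =>
    TMLib.Fix.fix (parse (p.2.take (P.p0 p.1))) with hIdef
  have hI : PTime I := PTime.fix (PTime.parse (PTime.take hp0 hx))
  have hy : PTime (fun p : ℕ × List Bool => (p.2.drop (P.p0 p.1)).take (P.ell p.1)) :=
    PTime.take hell (PTime.drop hp0 hx)
  have hcut : PTime (fun p : ℕ × List Bool =>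
      cut (P.s p.1) (P.ell p.1) (p.2.drop (P.p0 p.1 + P.ell p.1))) :=
    CFP.ptime_cut hs hell (PTime.drop (PTime.add hp0 hell) hx)
  -- the test of a block
  have hbad : FPNP (fun q : (ℕ × List Bool) × List Bool =>
      (cut (P.g q.1.1) (hbits (P.a q.1.1)) q.2).all fun h =>
        !S (samp S (P.a q.1.1) (I q.1).1 h, (I q.1).2)) := by
    refine hF.all (l := fun q : (ℕ × List Bool) × List Bool =>
        cut (P.g q.1.1) (hbits (P.a q.1.1)) q.2)
      (g := fun q h => !S (samp S (P.a q.1.1) (I q.1).1 h, (I q.1).2)) ?_ ?_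
    · exact FPNP.of_ptime (CFP.ptime_cut (hg.comp (PTime.fst PTime.id))
        (CFP.ptime_hbits (ha.comp (PTime.fst PTime.id))) (PTime.snd PTime.id))
    · have h1 : FPNP (fun r : ((ℕ × List Bool) × List Bool) × List Bool =>
          samp S (P.a r.1.1.1) (I r.1.1).1 r.2) := by
        refine hc.compp (g := fun p : ℕ × List Form × List Bool => samp S p.1 p.2.1 p.2.2)
          (f := fun r : ((ℕ × List Bool) × List Bool) × List Bool =>
            (P.a r.1.1.1, (I r.1.1).1, r.2)) hsamp ?_
        exact PTime.pair (PTime.comp (g := fun p : ℕ × List Bool => P.a p.1) ha (by fun_prop))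
          (PTime.pair (PTime.fst (PTime.comp (g := I) hI (by fun_prop))) (by fun_prop))
      have h2 : FPNP (fun r : ((ℕ × List Bool) × List Bool) × List Bool => (I r.1.1).2) :=
        FPNP.of_ptime (PTime.snd (PTime.comp (g := I) hI (by fun_prop)))
      exact hc.pcomp (g := fun s : List Bool × Form => !S s)
        (f := fun r : ((ℕ × List Bool) × List Bool) × List Bool =>
          (samp S (P.a r.1.1.1) (I r.1.1).1 r.2, (I r.1.1).2)) (PTime.not hS) (hc.pair h1 h2)
  have hstep : FPNP (fun q : (ℕ × List Bool) × List Bool =>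
      bif ((cut (P.g q.1.1) (hbits (P.a q.1.1)) q.2).all fun h =>
        !S (samp S (P.a q.1.1) (I q.1).1 h, (I q.1).2)) then false :: q.2
      else true :: xorl q.2 ((q.1.2.drop (P.p0 q.1.1)).take (P.ell q.1.1))) := by
    refine hc.cond hbad (FPNP.of_ptime (by fun_prop)) (FPNP.of_ptime ?_)
    exact PTime.cons (PTime.const true) (CFP.ptime_xorl (PTime.snd PTime.id)
      (PTime.comp (g := fun p : ℕ × List Bool => (p.2.drop (P.p0 p.1)).take (P.ell p.1)) hy
        (PTime.fst PTime.id)))
  have hfin := hF.flatMap (l := fun p : ℕ × List Bool =>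
      cut (P.s p.1) (P.ell p.1) (p.2.drop (P.p0 p.1 + P.ell p.1)))
    (g := fun (p : ℕ × List Bool) x =>
      bif ((cut (P.g p.1) (hbits (P.a p.1)) x).all fun h =>
        !S (samp S (P.a p.1) (I p).1 h, (I p).2)) then false :: x
      else true :: xorl x ((p.2.drop (P.p0 p.1)).take (P.ell p.1))) (FPNP.of_ptime hcut) hstep
  refine hfin.congr fun p => ?_
  unfold cstar
  simp only
  congr 1
  funext x
  by_cases h : BadBlock S (P.a p.1) (P.g p.1) (I p).1 (I p).2 x
  · rw [if_pos h, (CFP.badBlock_iff _ _ _ _ _ _).1 h]; rfl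
  · rw [if_neg h]
    have h2 : ((cut (P.g p.1) (hbits (P.a p.1)) x).all fun h =>
        !S (samp S (P.a p.1) (I p).1 h, (I p).2)) = false := by
      rw [Bool.eq_false_iff]
      exact fun h3 => h ((CFP.badBlock_iff _ _ _ _ _ _).2 h3)
    rw [h2]; rfl

end Pool.TQ
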