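import Pool.Agent.H74.TQ.Stmts
import Pool.Agent.TM.BitEnc

/-! # Two queries: parameters exist -/

set_option autoImplicit false

namespace Pool.TQ

open TMLib Polynomial

namespace PAR

def p0 (a : ℕ → ℕ) (n : ℕ) : ℕ := 1 + (1 + (a n + 1) * (1 + n)) + n
def z (a : ℕ → ℕ) (n : ℕ) : ℕ := p0 a n + hbits (a n) + a n + 1
def L (a : ℕ → ℕ) (n : ℕ) : ℕ := 2 * Nat.size (z a n) + 10
def g (a : ℕ → ℕ) (n : ℕ) : ℕ := 11 * L a n
def s (a : ℕ → ℕ) (n : ℕ) : ℕ := p0 a n + g a n * hbits (a n) + a n + 1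

lemma ptime_hbits {a : ℕ → ℕ} (ha : PTime a) : PTime (fun n => hbits (a n)) := by
  unfold hbits; fun_prop

lemma ptime_p0 {a : ℕ → ℕ} (ha : PTime a) : PTime (p0 a) := by
  have : PTime (fun n => 1 + (1 + (a n + 1) * (1 + n)) + n) := by fun_prop
  exact this

lemma ptime_z {a : ℕ → ℕ} (ha : PTime a) : PTime (z a) := by
  have h1 := ptime_p0 ha
  have h2 := ptime_hbits ha
  exact PTime.add (PTime.add (PTime.add h1 h2) ha) (PTime.const 1)

lemma ptime_L {a : ℕ → ℕ} (ha : PTime a) : PTime (L a) := by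
  have h1 : PTime (fun n => (z a n).bits.length) := PTime.length (PTime.bits (ptime_z ha))
  have h2 : PTime (fun n => 2 * (z a n).bits.length + 10) :=
    PTime.add (PTime.mul (PTime.const 2) h1) (PTime.const 10)
  exact h2.congr fun n => by rw [Nat.size_eq_bits_len]; rfl

lemma ptime_g {a : ℕ → ℕ} (ha : PTime a) : PTime (g a) :=
  PTime.mul (PTime.const 11) (ptime_L ha)

lemma ptime_s {a : ℕ → ℕ} (ha : PTime a) : PTime (s a) :=
  PTime.add (PTime.add (PTime.add (ptime_p0 ha) (PTime.mul (ptime_g ha) (ptime_hbits ha))) ha)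
    (PTime.const 1)

lemma s_lt (a : ℕ → ℕ) (n : ℕ) : s a n ≤ 2 ^ L a n := by
  have hz : z a n < 2 ^ Nat.size (z a n) := Nat.lt_size_self _
  have hσ : Nat.size (z a n) < 2 ^ Nat.size (z a n) := Nat.lt_two_pow_self
  have hL : 1 ≤ L a n := by unfold L; omega
  have h1 : s a n ≤ 11 * L a n * z a n := by
    unfold s z g
    have : 1 ≤ 11 * L a n := by omega
    nlinarith [Nat.zero_le (p0 a n), Nat.zero_le (hbits (a n)), Nat.zero_le (a n)]
  have h2 : 11 * L a n ≤ 1024 * 2 ^ Nat.size (z a n) := by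
    unfold L; omega
  calc s a n ≤ 11 * L a n * z a n := h1
    _ ≤ (1024 * 2 ^ Nat.size (z a n)) * 2 ^ Nat.size (z a n) :=
      Nat.mul_le_mul h2 hz.le
    _ = 2 ^ L a n := by
      unfold L
      rw [pow_add, mul_comm 2 (Nat.size _), pow_mul, sq]
      have : (2 : ℕ) ^ 10 = 1024 := by norm_num
      rw [this]; ring

end PAR

theorem par : S_PAR := by
  intro a ha
  refine ⟨⟨a, PAR.g a, PAR.s a, PAR.p0 a, ha, PAR.ptime_g ha, PAR.ptime_s ha, PAR.ptime_p0 ha,
    ?_, ?_, ?_, ?_⟩, rfl⟩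
  · intro n
    unfold PAR.g PAR.L; omega
  · intro n
    exact le_rfl
  · intro n
    rfl
  · intro n
    have h1 := PAR.s_lt a n
    have hL : PAR.L a n ≠ 0 := by unfold PAR.L; omega
    have h2 : (2 * 15 ^ 11) ^ PAR.L a n < (16 ^ 11) ^ PAR.L a n :=
      Nat.pow_lt_pow_left (by norm_num) hL
    calc PAR.s a n * 15 ^ PAR.g a n ≤ 2 ^ PAR.L a n * 15 ^ PAR.g a n :=
          Nat.mul_le_mul_right _ h1
      _ = (2 * 15 ^ 11) ^ PAR.L a n := by
          unfold PAR.g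
          rw [mul_pow, pow_mul]
      _ < (16 ^ 11) ^ PAR.L a n := h2
      _ = 16 ^ PAR.g a n := by unfold PAR.g; rw [pow_mul]

end Pool.TQ
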