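import Pool.Agent.H74.TQ.Stmts
import Pool.Agent.TM.Export

/-! # Two queries: range avoidance for functions computed with the oracle -/

set_option autoImplicit false

namespace Pool.TQ

open TMLib Polynomial

namespace STAR

/-- cut or pad to length `N` -/
def fit (N : ℕ) (l : List Bool) : List Bool := (l ++ List.replicate N false).take N

lemma fit_length (N : ℕ) (l : List Bool) : (fit N l).length = N := by
  unfold fit
  rw [List.length_take, List.length_append, List.length_replicate]
  omega

lemma fit_eq {N : ℕ} {l : List Bool} (h : l.length = N) : fit N l = l := by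
  unfold fit
  subst h
  exact List.take_left

end STAR

theorem star : S_STAR := by
  intro _ hsim c halg havoid Cs K a hCs hK ha hpos hlen
  obtain ⟨F, B, hF, hFB⟩ := hsim hCs (A := c.alg) halg
  set C : ℕ × List Bool → List Bool := fun p =>
    STAR.fit (K p.1 + a p.1 + 1) (F (Ctx.kdec (p.2.take (a p.1)), (p.1, p.2.drop (a p.1)))) with hC
  have hkdec : PTime Ctx.kdec := by
    have : PTime (fun l : List Bool => (TMLib.Fix.fix (parse l) : Form × List Bool)) := by fun_prop
    exact this
  have hn : PTime (fun p : ℕ × List Bool => p.1) := PTime.fst PTime.id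
  have hx : PTime (fun p : ℕ × List Bool => p.2) := PTime.snd PTime.id
  have han : PTime (fun p : ℕ × List Bool => a p.1) := ha.comp hn
  have hKn : PTime (fun p : ℕ × List Bool => K p.1 + a p.1 + 1) :=
    PTime.add (PTime.add (hK.comp hn) han) (PTime.const 1)
  have hCp : PTime C := by
    have h1 : PTime (fun p : ℕ × List Bool =>
        F (Ctx.kdec (p.2.take (a p.1)), (p.1, p.2.drop (a p.1)))) :=
      PTime.comp (g := F) hF (PTime.pair (PTime.comp (g := Ctx.kdec) hkdec (PTime.take han hx))
        (PTime.pair hn (PTime.drop han hx)))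
    exact PTime.take hKn (PTime.append h1 (PTime.replicate hKn (PTime.const false)))
  have hst : Stretch C (fun n => K n + a n) := by
    refine ⟨hCp, PTime.add hK ha, fun n => le_trans (hpos n) (Nat.le_add_right _ _), ?_⟩
    intro n x _
    exact STAR.fit_length _ _
  obtain ⟨Av, hAv, hspec⟩ := havoid C (fun n => K n + a n) (fun n => n) hst PTime.id
  refine ⟨Av, fun n => B.eval (1 + (2 * n + 1) + (1 + 4 * K n)), hAv, ?_, ?_⟩
  · refine PTime.polyEval B ?_
    exact PTime.add (PTime.add (PTime.const 1) (PTime.add (PTime.mul (PTime.const 2) PTime.id)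
      (PTime.const 1))) (PTime.add (PTime.const 1) (PTime.mul (PTime.const 4) hK))
  · intro n
    obtain ⟨h1, h2⟩ := hspec n
    refine ⟨h1, fun hnone => ?_⟩
    obtain ⟨h3, h4⟩ := h2 hnone
    refine ⟨h3, ?_⟩
    rintro m hm ⟨κ, hκ, hstr⟩ x hxl heq
    have h5 : (κ ++ x).length = K n + a n := by rw [List.length_append, hκ, hxl]; omega
    refine h4 (κ ++ x) h5 ?_
    have h6 : C (n, κ ++ x) = STAR.fit (K n + a n + 1) (F (Ctx.kdec κ, (n, x))) := by
      simp only [hC]
      rw [← hκ, List.take_left, List.drop_left]
    have h7 : F (Ctx.kdec κ, (n, x)) = Cs (n, x) := by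
      refine hFB _ _ fun ψ hψ => ?_
      have h8 : sz ψ ≤ m := by
        refine hψ.trans (le_trans ?_ hm)
        refine eval_mono B ?_
        rw [sz_pair, sz_nat]
        have := sz_bits_le x
        simp only
        omega
      have h9 := hstr ψ h8
      rw [Bool.eq_iff_iff, ← h9, satb_iff]
    rw [h6, h7, STAR.fit_eq (hlen n x hxl), heq]

end Pool.TQ
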