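import Pool.Agent.H74.TQ.Stmts
import Pool.Agent.TM.Export

/-! # Two queries: the formula for `WrongBefore` -/

set_option autoImplicit false

namespace Pool.TQ

open TMLib Polynomial

namespace WB

variable (f : ℕ × List Bool → List Bool × List Bool) (K : ℕ → ℕ)

/-- guarded step -/
def gstep (n : ℕ) (e : List Bool) (b : Bool) : List Bool :=
  if e.length = K n then (bif b then (f (n, e)).2 else (f (n, e)).1) else e

/-- guarded decoding -/
def gdec (n : ℕ) (e p : List Bool) : List Bool := p.foldl (gstep f K n) e

variable {f K}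

lemma gstep_length (h : Double f K) (n : ℕ) {e : List Bool} (b : Bool) (he : e.length = K n) :
    (gstep f K n e b).length = K n := by
  unfold gstep
  rw [if_pos he]
  cases b
  · exact h.len₁ n e he
  · exact h.len₂ n e he

lemma gdec_eq (h : Double f K) (n : ℕ) (p : List Bool) : ∀ e : List Bool, e.length = K n →
    gdec f K n e p = dec (fun x => f (n, x)) e p ∧ (gdec f K n e p).length = K n := by
  induction p with
  | nil => intro e he; exact ⟨rfl, he⟩
  | cons b p ih =>
    intro e he
    have h1 := gstep_length h n b he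
    have h2 : gstep f K n e b = bif b then (f (n, e)).2 else (f (n, e)).1 := by
      unfold gstep; rw [if_pos he]
    obtain ⟨h3, h4⟩ := ih _ h1
    refine ⟨?_, h4⟩
    change gdec f K n (gstep f K n e b) p = dec (fun x => f (n, x)) _ p
    rw [h3, h2]

lemma gdec_length (h : Double f K) (n : ℕ) (e p : List Bool) :
    (gdec f K n e p).length ≤ e.length + K n := by
  by_cases he : e.length = K n
  · rw [(gdec_eq h n p e he).2]; omega
  · have : gdec f K n e p = e := by
      induction p with
      | nil => rfl
      | cons b p ih =>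
        change gdec f K n (gstep f K n e b) p = e
        have h2 : gstep f K n e b = e := by unfold gstep; rw [if_neg he]
        rw [h2, ih]
    rw [this]; omega

lemma ptime_gdec (h : Double f K) :
    PTime (fun a : ℕ × List Bool × List Bool => gdec f K a.1 a.2.1 a.2.2) := by
  have hK := h.pK
  have hf := h.pf
  have hstep : PTime (fun p : (ℕ × List Bool × List Bool) × List Bool × Bool =>
      gstep f K p.1.1 p.2.1 p.2.2) := by
    have he : PTime (fun p : (ℕ × List Bool × List Bool) × List Bool × Bool => p.2.1) := by
      fun_prop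
    have hfe : PTime (fun p : (ℕ × List Bool × List Bool) × List Bool × Bool =>
        f (p.1.1, p.2.1)) :=
      PTime.comp (g := f) (f := fun p : (ℕ × List Bool × List Bool) × List Bool × Bool =>
        (p.1.1, p.2.1)) hf (by fun_prop)
    have hKe : PTime (fun p : (ℕ × List Bool × List Bool) × List Bool × Bool => K p.1.1) :=
      PTime.comp (g := K) hK (by fun_prop)
    unfold gstep
    exact PTime.ite (PTime.natEq (PTime.length he) hKe)
      (PTime.cond (by fun_prop) (PTime.snd hfe) (PTime.fst hfe)) he
  refine PTime.foldl (f := fun (a : ℕ × List Bool × List Bool) e b => gstep f K a.1 e b)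
    (init := fun a => a.2.1) (l := fun a => a.2.2) hstep (by fun_prop) (by fun_prop)
    (h := fun a => 1 + 4 * (sz a + sz (K a.1))) ((PB.const 1).add ((PB.const 4).mul
      (PB.sz_self.add (PTime.comp (g := K) hK (PTime.fst PTime.id)).pb))) ?_
  intro a l' _
  refine (sz_bits_le _).trans ?_
  have h1 : (l'.foldl (fun e b => gstep f K a.1 e b) a.2.1).length ≤ a.2.1.length + K a.1 :=
    gdec_length h a.1 a.2.1 l'
  have h2 := length_lt_sz a.2.1
  have h3 : sz a.2.1 ≤ sz a := by
    rw [sz_pair a, sz_pair a.2]; omega
  rw [sz_nat]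
  omega

end WB

theorem wb : S_WB := by
  intro hc hl f K h
  have hg := WB.ptime_gdec h
  have hK := h.pK
  classical
  have hR : NPp (fun p : (ℕ × (List Bool × List Bool)) × List Bool =>
      p.2.length = K p.1.1 ∧ ltb (false :: p.2) p.1.2.1 = true ∧
        ¬ (WB.gdec f K p.1.1 p.1.2.2 p.2 = (WB.gdec f K p.1.1 p.2 p.2).map not)) := by
    refine NPp.of_ptime (PTime.decide_and ?_ (PTime.decide_and ?_ (PTime.decide_not ?_)))
    · exact PTime.natEq (PTime.length (PTime.snd PTime.id)) (PTime.comp (g := K) hK (by fun_prop))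
    · exact PTime.decide_true' (PTime.comp (g := fun p : List Bool × List Bool => ltb p.1 p.2)
        (f := fun p : (ℕ × (List Bool × List Bool)) × List Bool => (false :: p.2, p.1.2.1))
        hl.ptime (by fun_prop))
    · refine PTime.eq ?_ ?_
      · exact PTime.comp (g := fun a : ℕ × List Bool × List Bool => WB.gdec f K a.1 a.2.1 a.2.2)
          (f := fun p : (ℕ × (List Bool × List Bool)) × List Bool => (p.1.1, p.1.2.2, p.2))
          hg (by fun_prop)
      · refine PTime.map (g := fun _ b => !b) ?_ (by fun_prop)
        exact PTime.comp (g := fun a : ℕ × List Bool × List Bool => WB.gdec f K a.1 a.2.1 a.2.2)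
          (f := fun p : (ℕ × (List Bool × List Bool)) × List Bool => (p.1.1, p.2, p.2))
          hg (by fun_prop)
  have hE := NPp.exists_le (R := fun (x : ℕ × (List Bool × List Bool)) (j : List Bool) =>
      j.length = K x.1 ∧ ltb (false :: j) x.2.1 = true ∧
        ¬ (WB.gdec f K x.1 x.2.2 j = (WB.gdec f K x.1 j j).map not)) hR
      (q := fun x => 1 + 4 * K x.1)
      (PTime.add (PTime.const 1) (PTime.mul (PTime.const 4)
        (PTime.comp (g := K) hK (PTime.fst PTime.id))))
  obtain ⟨FF, hFF, hspec⟩ := hc.toSat hE
  refine ⟨FF, hFF, fun n i e he => ?_⟩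
  rw [← hspec]
  constructor
  · rintro ⟨j, -, hj, hlt, hne⟩
    refine ⟨j, hj, hlt, fun heq => hne ?_⟩
    rw [(WB.gdec_eq h n j e he).1, (WB.gdec_eq h n j j hj).1]
    exact heq
  · rintro ⟨j, hj, hlt, hne⟩
    refine ⟨j, ?_, hj, hlt, fun heq => hne ?_⟩
    · have := sz_bits_le j
      simp only
      omega
    · rw [(WB.gdec_eq h n j e he).1, (WB.gdec_eq h n j j hj).1] at heq
      exact heq

end Pool.TQ
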